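import Mathlib

open Finset

namespace H77jP

variable (p : ℕ) [hp : Fact p.Prime]

/-- harmonic number in the p-adic field -/
noncomputable def hq (n : ℕ) : ℚ_[p] := ((harmonic n : ℚ) : ℚ_[p])

/-- `p^(M-1)` times the sum of `1/j` over `p^M x < j ≤ p^M x + w` -/
noncomputable def psi (M x w : ℕ) : ℚ_[p] :=
  (p : ℚ_[p]) ^ M / p * (hq p (p ^ M * x + w) - hq p (p ^ M * x))

open Classical in
/-- residue modulo `p^M` of a p-adic integer -/
noncomputable def red (M : ℕ) (z : ℚ_[p]) : ℕ :=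
  if h : ‖z‖ ≤ 1 then PadicInt.appr (⟨z, h⟩ : ℤ_[p]) M else 0

/-- residue of `psi` modulo `p^M` -/
noncomputable def V (M x w : ℕ) : ℕ := red p M (psi p M x w)

/-- the largest fibre of `V` on a block -/
noncomputable def NN (M : ℕ) : ℕ :=
  (range (p ^ M) ×ˢ range (p ^ M)).sup
    (fun q => ((range (p ^ M)).filter (fun w => V p M q.1 w = q.2)).card)

theorem p_pos : (0 : ℝ) < p := by exact_mod_cast hp.out.pos

theorem p_one_lt : (1 : ℝ) < p := by exact_mod_cast hp.out.one_lt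

theorem p_ne : (p : ℚ_[p]) ≠ 0 := by exact_mod_cast hp.out.ne_zero

theorem nsub (a b : ℚ_[p]) (c : ℝ) (ha : ‖a‖ ≤ c) (hb : ‖b‖ ≤ c) : ‖a - b‖ ≤ c := by
  rw [sub_eq_add_neg]
  refine (Padic.nonarchimedean _ _).trans (max_le ha ?_)
  rwa [norm_neg]

theorem nadd (a b : ℚ_[p]) (c : ℝ) (ha : ‖a‖ ≤ c) (hb : ‖b‖ ≤ c) : ‖a + b‖ ≤ c :=
  (Padic.nonarchimedean _ _).trans (max_le ha hb)

theorem nnat (n : ℕ) : ‖(n : ℚ_[p])‖ ≤ 1 := by
  have := Padic.norm_int_le_one (p := p) (n : ℤ)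
  simpa using this

theorem red_lt (M : ℕ) (z : ℚ_[p]) : red p M z < p ^ M := by
  unfold red
  split_ifs with h
  · exact PadicInt.appr_lt _ _
  · exact pow_pos hp.out.pos _

theorem red_spec (M : ℕ) (z : ℚ_[p]) (h : ‖z‖ ≤ 1) :
    ‖z - (red p M z : ℚ_[p])‖ ≤ (p : ℝ) ^ (-M : ℤ) := by
  unfold red
  rw [dif_pos h]
  have h0 : ∀ y : ℤ_[p], ‖(y : ℚ_[p]) - ((PadicInt.appr y M : ℕ) : ℚ_[p])‖
      ≤ (p : ℝ) ^ (-M : ℤ) := by
    intro y
    have h1 := (PadicInt.norm_le_pow_iff_mem_span_pow _ M).2 (PadicInt.appr_spec M y)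
    rw [PadicInt.norm_def, PadicInt.coe_sub, PadicInt.coe_natCast] at h1
    exact h1
  exact h0 ⟨z, h⟩

theorem mod_eq_of_norm (M a b : ℕ) (h : ‖(a : ℚ_[p]) - (b : ℚ_[p])‖ ≤ (p : ℝ) ^ (-M : ℤ)) :
    a % p ^ M = b % p ^ M := by
  have h1 : ‖(((a : ℤ) - (b : ℤ) : ℤ) : ℚ_[p])‖ ≤ (p : ℝ) ^ (-M : ℤ) := by
    push_cast; exact h
  rw [Padic.norm_int_le_pow_iff_dvd] at h1
  have h2 : (b : ℕ) ≡ a [MOD p ^ M] := by
    rw [Nat.modEq_iff_dvd]; push_cast; exact h1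
  exact h2.symm

theorem norm_of_mod_eq (M a b : ℕ) (h : a % p ^ M = b % p ^ M) :
    ‖(a : ℚ_[p]) - (b : ℚ_[p])‖ ≤ (p : ℝ) ^ (-M : ℤ) := by
  have h2 : (b : ℕ) ≡ a [MOD p ^ M] := h.symm
  rw [Nat.modEq_iff_dvd] at h2
  have h1 : ‖(((a : ℤ) - (b : ℤ) : ℤ) : ℚ_[p])‖ ≤ (p : ℝ) ^ (-M : ℤ) := by
    rw [Padic.norm_int_le_pow_iff_dvd]; push_cast at h2; exact h2
  push_cast at h1; exact h1

theorem red_eq (M : ℕ) (z : ℚ_[p]) (h : ‖z‖ ≤ 1) (a : ℕ)
    (ha : ‖z - (a : ℚ_[p])‖ ≤ (p : ℝ) ^ (-M : ℤ)) : red p M z = a % p ^ M := by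
  have h1 := red_spec p M z h
  have h2 : ‖(red p M z : ℚ_[p]) - (a : ℚ_[p])‖ ≤ (p : ℝ) ^ (-M : ℤ) := by
    have := nsub p _ _ _ ha h1
    convert this using 2; ring
  rw [← mod_eq_of_norm p M _ _ h2, Nat.mod_eq_of_lt (red_lt p M z)]

theorem red_congr (M : ℕ) (z z' : ℚ_[p]) (h : ‖z‖ ≤ 1) (h' : ‖z'‖ ≤ 1)
    (ha : ‖z - z'‖ ≤ (p : ℝ) ^ (-M : ℤ)) : red p M z = red p M z' := by
  have h1 := red_spec p M z' h'
  have h2 : ‖z - (red p M z' : ℚ_[p])‖ ≤ (p : ℝ) ^ (-M : ℤ) := by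
    have := nadd p _ _ _ ha h1
    convert this using 2; ring
  rw [red_eq p M z h _ h2, Nat.mod_eq_of_lt (red_lt p M z')]

theorem V_lt (M x w : ℕ) : V p M x w < p ^ M := red_lt p M _

theorem hq_succ (n : ℕ) : hq p (n + 1) = hq p n + (((n + 1 : ℕ) : ℚ_[p]))⁻¹ := by
  unfold hq; rw [harmonic_succ]; push_cast; ring

theorem hq_sub (a w : ℕ) :
    hq p (a + w) - hq p a = ∑ j ∈ Ioc 0 w, (((a + j : ℕ) : ℚ_[p]))⁻¹ := by
  induction w with
  | zero => simp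
  | succ w ih =>
    rw [sum_Ioc_succ_top (Nat.zero_le w), ← ih, ← add_assoc, hq_succ]; ring

theorem inv_norm_le (M n : ℕ) (h : ¬ p ^ M ∣ n) :
    ‖((n : ℚ_[p]))⁻¹‖ ≤ (p : ℝ) ^ ((M : ℤ) - 1) := by
  have h1 : ¬ ‖((n : ℤ) : ℚ_[p])‖ ≤ (p : ℝ) ^ (-M : ℤ) := by
    rw [Padic.norm_int_le_pow_iff_dvd]
    intro h2; apply h; exact_mod_cast h2
  rw [Padic.norm_le_pow_iff_norm_lt_pow_add_one, not_lt] at h1
  have h3 : (p : ℝ) ^ (-(M : ℤ) + 1) ≤ ‖(n : ℚ_[p])‖ := by simpa using h1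
  rw [norm_inv]
  have h4 : (0 : ℝ) < (p : ℝ) ^ (-(M : ℤ) + 1) := zpow_pos (p_pos p) _
  have h5 : (p : ℝ) ^ ((M : ℤ) - 1) = ((p : ℝ) ^ (-(M : ℤ) + 1))⁻¹ := by
    rw [← zpow_neg]; congr 1; ring
  rw [h5]
  exact inv_anti₀ h4 h3

theorem norm_coef (M : ℕ) : ‖(p : ℚ_[p]) ^ M / p‖ = (p : ℝ) ^ (1 - (M : ℤ)) := by
  have : (p : ℚ_[p]) ^ M / p = (p : ℚ_[p]) ^ ((M : ℤ) - 1) := by
    rw [zpow_sub₀ (p_ne p)]; simp
  rw [this, Padic.norm_p_zpow]; congr 1; ring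

omit hp in
theorem not_dvd_block (M x j : ℕ) (h0 : 0 < j) (h1 : j < p ^ M) : ¬ p ^ M ∣ p ^ M * x + j := by
  intro h
  have : p ^ M ∣ j := (Nat.dvd_add_right (Dvd.intro _ rfl)).1 h
  exact absurd (Nat.le_of_dvd h0 this) (not_le.2 h1)

theorem psi_eq (M x w : ℕ) :
    psi p M x w = ∑ j ∈ Ioc 0 w, (p : ℚ_[p]) ^ M / p * (((p ^ M * x + j : ℕ) : ℚ_[p]))⁻¹ := by
  unfold psi; rw [hq_sub, mul_sum]

theorem psi_int (M x w : ℕ) (hw : w < p ^ M) : ‖psi p M x w‖ ≤ 1 := by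
  rw [psi_eq]
  refine IsUltrametricDist.norm_sum_le_of_forall_le_of_nonneg zero_le_one ?_
  intro j hj
  rw [mem_Ioc] at hj
  have h1 := inv_norm_le p M _ (not_dvd_block p M x j hj.1 (lt_of_le_of_lt hj.2 hw))
  rw [norm_mul, norm_coef]
  calc _ ≤ (p : ℝ) ^ (1 - (M : ℤ)) * (p : ℝ) ^ ((M : ℤ) - 1) :=
        mul_le_mul_of_nonneg_left h1 (zpow_pos (p_pos p) _).le
    _ = 1 := by rw [← zpow_add₀ (p_pos p).ne']; simp

theorem V_spec (M x w : ℕ) (hw : w < p ^ M) :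
    ‖psi p M x w - (V p M x w : ℚ_[p])‖ ≤ (p : ℝ) ^ (-M : ℤ) :=
  red_spec p M _ (psi_int p M x w hw)

theorem zp_mono (a b : ℤ) (h : a ≤ b) : (p : ℝ) ^ a ≤ (p : ℝ) ^ b :=
  zpow_le_zpow_right₀ (p_one_lt p).le h

theorem LOC (M x x' w : ℕ) (hw : w < p ^ M) (hx : x % p ^ M = x' % p ^ M) :
    V p M x w = V p M x' w := by
  refine red_congr p M _ _ (psi_int p M x w hw) (psi_int p M x' w hw) ?_
  rw [psi_eq, psi_eq, ← sum_sub_distrib]
  refine IsUltrametricDist.norm_sum_le_of_forall_le_of_nonneg (zpow_pos (p_pos p) _).le ?_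
  intro j hj
  rw [mem_Ioc] at hj
  have n1 := not_dvd_block p M x j hj.1 (lt_of_le_of_lt hj.2 hw)
  have n2 := not_dvd_block p M x' j hj.1 (lt_of_le_of_lt hj.2 hw)
  have h1 := inv_norm_le p M _ n1
  have h2 := inv_norm_le p M _ n2
  have z1 : ((p ^ M * x + j : ℕ) : ℚ_[p]) ≠ 0 := by
    have : p ^ M * x + j ≠ 0 := by omega
    exact_mod_cast this
  have z2 : ((p ^ M * x' + j : ℕ) : ℚ_[p]) ≠ 0 := by
    have : p ^ M * x' + j ≠ 0 := by omega
    exact_mod_cast this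
  have h3 := norm_of_mod_eq p M x' x hx.symm
  have e : (p : ℚ_[p]) ^ M / p * (((p ^ M * x + j : ℕ) : ℚ_[p]))⁻¹
      - (p : ℚ_[p]) ^ M / p * (((p ^ M * x' + j : ℕ) : ℚ_[p]))⁻¹
      = ((p : ℚ_[p]) ^ M / p) * (p : ℚ_[p]) ^ M * ((x' : ℚ_[p]) - x)
        * (((p ^ M * x + j : ℕ) : ℚ_[p]))⁻¹ * (((p ^ M * x' + j : ℕ) : ℚ_[p]))⁻¹ := by
    have e2 : ((p ^ M * x' + j : ℕ) : ℚ_[p]) - ((p ^ M * x + j : ℕ) : ℚ_[p])
        = (p : ℚ_[p]) ^ M * ((x' : ℚ_[p]) - x) := by push_cast; ring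
    rw [mul_assoc ((p : ℚ_[p]) ^ M / p), ← e2]
    generalize ((p ^ M * x + j : ℕ) : ℚ_[p]) = A at *
    generalize ((p ^ M * x' + j : ℕ) : ℚ_[p]) = B at *
    field_simp
  rw [e, norm_mul, norm_mul, norm_mul, norm_mul, norm_coef, Padic.norm_p_pow]
  have pp := p_pos p
  calc _ ≤ (p : ℝ) ^ (1 - (M : ℤ)) * (p : ℝ) ^ (-M : ℤ) * (p : ℝ) ^ (-M : ℤ)
          * (p : ℝ) ^ ((M : ℤ) - 1) * (p : ℝ) ^ ((M : ℤ) - 1) := by gcongr
    _ = (p : ℝ) ^ (-(M : ℤ) - 1) := by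
        simp only [← zpow_add₀ pp.ne']; congr 1; ring
    _ ≤ _ := zp_mono p _ _ (by omega)

theorem psi_coc (M M' x w w' : ℕ) :
    psi p (M + M') x (p ^ M' * w + w')
      = psi p (M + M') x (p ^ M' * w) + (p : ℚ_[p]) ^ M * psi p M' (p ^ M * x + w) w' := by
  unfold psi
  have e1 : p ^ (M + M') * x + (p ^ M' * w + w') = p ^ M' * (p ^ M * x + w) + w' := by ring
  have e2 : p ^ (M + M') * x + p ^ M' * w = p ^ M' * (p ^ M * x + w) := by ring
  rw [e1, e2]; ring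

omit hp in
theorem lt_block (M M' w w' : ℕ) (hw : w < p ^ M) (hw' : w' < p ^ M') :
    p ^ M' * w + w' < p ^ (M + M') := by
  have : p ^ M' * (w + 1) ≤ p ^ M' * p ^ M := Nat.mul_le_mul_left _ hw
  rw [pow_add, mul_comm (p ^ M)]; nlinarith

theorem COC (M M' x w w' : ℕ) (hw : w < p ^ M) (hw' : w' < p ^ M') :
    V p (M + M') x (p ^ M' * w + w')
      = (V p (M + M') x (p ^ M' * w) + p ^ M * V p M' (p ^ M * x + w) w') % p ^ (M + M') := by
  have l1 := lt_block p M M' w w' hw hw'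
  have l0 : p ^ M' * w < p ^ (M + M') := by omega
  refine red_eq p _ _ (psi_int p _ _ _ l1) _ ?_
  have h1 := V_spec p (M + M') x _ l0
  have h2 := V_spec p M' (p ^ M * x + w) w' hw'
  have h3 : ‖(p : ℚ_[p]) ^ M * (psi p M' (p ^ M * x + w) w' - (V p M' (p ^ M * x + w) w' : ℚ_[p]))‖
      ≤ (p : ℝ) ^ (-((M + M' : ℕ) : ℤ)) := by
    rw [norm_mul, Padic.norm_p_pow]
    calc _ ≤ (p : ℝ) ^ (-M : ℤ) * (p : ℝ) ^ (-M' : ℤ) :=
          mul_le_mul_of_nonneg_left h2 (zpow_pos (p_pos p) _).le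
      _ = _ := by rw [← zpow_add₀ (p_pos p).ne']; congr 1; push_cast; ring
  have := nadd p _ _ _ h1 h3
  rw [psi_coc]
  convert this using 2
  push_cast; ring

theorem hq_step (m : ℕ) : ‖(p : ℚ_[p]) * hq p (p * m) - hq p m‖ ≤ (p : ℝ) ^ (-1 : ℤ) := by
  induction m with
  | zero => simp [hq]
  | succ m ih =>
    obtain ⟨r, hr⟩ : ∃ r, p = r + 1 := ⟨p - 1, by have := hp.out.pos; omega⟩
    have e1 : p * (m + 1) = (p * m + r) + 1 := by rw [mul_add, mul_one]; omega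
    have h1 := hq_sub p (p * m) r
    have h2 : ‖(p : ℚ_[p]) * (hq p (p * m + r) - hq p (p * m))‖ ≤ (p : ℝ) ^ (-1 : ℤ) := by
      rw [h1, mul_sum]
      refine IsUltrametricDist.norm_sum_le_of_forall_le_of_nonneg (zpow_pos (p_pos p) _).le ?_
      intro j hj
      rw [mem_Ioc] at hj
      have n1 := not_dvd_block p 1 m j hj.1 (by rw [pow_one]; omega)
      have h3 := inv_norm_le p 1 _ n1
      rw [pow_one] at h3
      rw [norm_mul, Padic.norm_p]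
      have h4 : ‖((p * m + j : ℕ) : ℚ_[p])⁻¹‖ ≤ 1 := by simpa using h3
      calc _ ≤ (p : ℝ)⁻¹ * 1 := mul_le_mul_of_nonneg_left h4 (inv_pos.2 (p_pos p)).le
        _ = _ := by simp
    have h5 := nadd p _ _ _ ih h2
    have e2 : hq p (p * (m + 1)) = hq p (p * m + r) + (((p * (m + 1) : ℕ) : ℚ_[p]))⁻¹ := by
      rw [e1, hq_succ]
    have z : ((m + 1 : ℕ) : ℚ_[p]) ≠ 0 := by exact_mod_cast Nat.succ_ne_zero m
    have e3 : (p : ℚ_[p]) * (((p * (m + 1) : ℕ) : ℚ_[p]))⁻¹ = (((m + 1 : ℕ) : ℚ_[p]))⁻¹ := by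
      rw [Nat.cast_mul, mul_inv, ← mul_assoc, mul_inv_cancel₀ (p_ne p), one_mul]
    rw [e2, hq_succ, mul_add, e3]
    convert h5 using 2; ring

theorem hq_pow (k n : ℕ) :
    ‖(p : ℚ_[p]) ^ k * hq p (p ^ k * n) - hq p n‖ ≤ (p : ℝ) ^ (-1 : ℤ) := by
  induction k with
  | zero => simp
  | succ k ih =>
    have h1 := hq_step p (p ^ k * n)
    have h2 : ‖(p : ℚ_[p]) ^ k * ((p : ℚ_[p]) * hq p (p * (p ^ k * n)) - hq p (p ^ k * n))‖
        ≤ (p : ℝ) ^ (-1 : ℤ) := by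
      rw [norm_mul]
      have h3 : ‖(p : ℚ_[p]) ^ k‖ ≤ 1 := by
        have := nnat p (p ^ k); simpa using this
      calc _ ≤ 1 * (p : ℝ) ^ (-1 : ℤ) := by gcongr
        _ = _ := one_mul _
    have h5 := nadd p _ _ _ ih h2
    have e : p ^ (k + 1) * n = p * (p ^ k * n) := by ring
    rw [e]
    convert h5 using 2; ring

theorem psi_con (M M' x w : ℕ) :
    ‖psi p (M + M') x (p ^ M' * w) - psi p M x w‖ ≤ (p : ℝ) ^ (-M : ℤ) := by
  have h1 := nsub p _ _ _ (hq_pow p M' (p ^ M * x + w)) (hq_pow p M' (p ^ M * x))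
  have e2 : p ^ (M + M') * x + p ^ M' * w = p ^ M' * (p ^ M * x + w) := by ring
  have e3 : p ^ (M + M') * x = p ^ M' * (p ^ M * x) := by ring
  have e : psi p (M + M') x (p ^ M' * w) - psi p M x w = (p : ℚ_[p]) ^ M / p *
      ((p : ℚ_[p]) ^ M' * hq p (p ^ M' * (p ^ M * x + w)) - hq p (p ^ M * x + w)
        - ((p : ℚ_[p]) ^ M' * hq p (p ^ M' * (p ^ M * x)) - hq p (p ^ M * x))) := by
    unfold psi; rw [e2, e3]; ring
  rw [e, norm_mul, norm_coef]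
  calc _ ≤ (p : ℝ) ^ (1 - (M : ℤ)) * (p : ℝ) ^ (-1 : ℤ) :=
        mul_le_mul_of_nonneg_left h1 (zpow_pos (p_pos p) _).le
    _ = _ := by rw [← zpow_add₀ (p_pos p).ne']; congr 1; ring

theorem CON (M M' x w w' : ℕ) (hw : w < p ^ M) (hw' : w' < p ^ M') :
    V p (M + M') x (p ^ M' * w + w') % p ^ M = V p M x w := by
  have l1 := lt_block p M M' w w' hw hw'
  symm
  refine red_eq p _ _ (psi_int p _ _ _ hw) _ ?_
  have h1 : ‖psi p (M + M') x (p ^ M' * w + w') - (V p (M + M') x (p ^ M' * w + w') : ℚ_[p])‖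
      ≤ (p : ℝ) ^ (-M : ℤ) :=
    (V_spec p (M + M') x _ l1).trans (zp_mono p _ _ (by push_cast; omega))
  have h2 := psi_con p M M' x w
  have h3 : ‖(p : ℚ_[p]) ^ M * psi p M' (p ^ M * x + w) w'‖ ≤ (p : ℝ) ^ (-M : ℤ) := by
    rw [norm_mul, Padic.norm_p_pow]
    calc _ ≤ (p : ℝ) ^ (-M : ℤ) * 1 :=
          mul_le_mul_of_nonneg_left (psi_int p _ _ _ hw') (zpow_pos (p_pos p) _).le
      _ = _ := mul_one _
  have h4 := nsub p _ _ _ (nsub p _ _ _ h1 h2) h3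
  rw [psi_coc] at h4
  convert h4 using 2; ring

theorem CAP (M x r : ℕ) : ((range (p ^ M)).filter (fun w => V p M x w = r)).card ≤ NN p M := by
  by_cases hr : r < p ^ M
  · have hx : x % p ^ M < p ^ M := Nat.mod_lt _ (pow_pos hp.out.pos _)
    have h1 : (range (p ^ M)).filter (fun w => V p M x w = r)
        = (range (p ^ M)).filter (fun w => V p M (x % p ^ M) w = r) := by
      refine filter_congr ?_
      intro w hw
      rw [LOC p M x (x % p ^ M) w (mem_range.1 hw) (by simp)]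
    rw [h1]
    exact le_sup (f := fun q : ℕ × ℕ => ((range (p ^ M)).filter (fun w => V p M q.1 w = q.2)).card)
      (b := (x % p ^ M, r)) (mem_product.2 ⟨mem_range.2 hx, mem_range.2 hr⟩)
  · have h1 : (range (p ^ M)).filter (fun w => V p M x w = r) = ∅ := by
      refine filter_eq_empty_iff.2 ?_
      intro w _ h
      exact hr (h ▸ V_lt p M x w)
    rw [h1]; simp

theorem NN_attained (M : ℕ) : ∃ x r : ℕ, x < p ^ M ∧ r < p ^ M ∧
    ((range (p ^ M)).filter (fun w => V p M x w = r)).card = NN p M := by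
  have hne : (range (p ^ M) ×ˢ range (p ^ M)).Nonempty :=
    ⟨(0, 0), mem_product.2 ⟨mem_range.2 (pow_pos hp.out.pos _), mem_range.2 (pow_pos hp.out.pos _)⟩⟩
  obtain ⟨q, hq1, hq2⟩ := exists_mem_eq_sup _ hne
    (fun q : ℕ × ℕ => ((range (p ^ M)).filter (fun w => V p M q.1 w = q.2)).card)
  rw [mem_product, mem_range, mem_range] at hq1
  exact ⟨q.1, q.2, hq1.1, hq1.2, hq2.symm⟩

theorem one_le_NN (M : ℕ) : 1 ≤ NN p M := by
  refine le_trans ?_ (CAP p M 0 (V p M 0 0))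
  exact card_pos.2 ⟨0, mem_filter.2 ⟨mem_range.2 (pow_pos hp.out.pos _), rfl⟩⟩

theorem NN_le (M : ℕ) : NN p M ≤ p ^ M := by
  obtain ⟨x, r, -, -, h⟩ := NN_attained p M
  rw [← h]
  exact (card_filter_le _ _).trans (card_range _).le

theorem cancel_top (M M' t a b : ℕ) (ha : a < p ^ M') (hb : b < p ^ M')
    (h : (t + p ^ M * a) % p ^ (M + M') = (t + p ^ M * b) % p ^ (M + M')) : a = b := by
  have h1 : t + p ^ M * a ≡ t + p ^ M * b [MOD p ^ (M + M')] := h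
  have h2 := Nat.ModEq.add_left_cancel' t h1
  rw [pow_add] at h2
  have h3 := Nat.ModEq.mul_left_cancel' (pow_pos hp.out.pos M).ne' h2
  exact Nat.ModEq.eq_of_lt_of_lt h3 ha hb

theorem SUB (M M' : ℕ) : NN p (M + M') ≤ NN p M * NN p M' := by
  obtain ⟨x, r, -, -, h⟩ := NN_attained p (M + M')
  rw [← h, mul_comm]
  have hP : 0 < p ^ M' := pow_pos hp.out.pos _
  have hdiv : ∀ W, W < p ^ (M + M') → W / p ^ M' < p ^ M := by
    intro W hW
    rw [Nat.div_lt_iff_lt_mul hP, ← pow_add]; exact hW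
  refine le_trans (card_le_mul_card_image_of_maps_to (f := fun W => W / p ^ M')
    (t := (range (p ^ M)).filter (fun w => V p M x w = r % p ^ M)) ?_ (NN p M') ?_)
    (Nat.mul_le_mul_left _ (CAP p M x _))
  · intro W hW
    rw [mem_filter, mem_range] at hW ⊢
    refine ⟨hdiv W hW.1, ?_⟩
    rw [← CON p M M' x (W / p ^ M') (W % p ^ M') (hdiv W hW.1) (Nat.mod_lt _ hP),
      Nat.div_add_mod, hW.2]
  · intro w hw
    rw [mem_filter, mem_range] at hw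
    rcases (((range (p ^ (M + M'))).filter (fun W => V p (M + M') x W = r)).filter
      (fun W => W / p ^ M' = w)).eq_empty_or_nonempty with he | ⟨W0, hW0⟩
    · rw [he]; simp
    · refine le_trans (card_le_card_of_injOn (fun W => W % p ^ M') ?_ ?_)
        (CAP p M' (p ^ M * x + w) (V p M' (p ^ M * x + w) (W0 % p ^ M')))
      · intro W hW
        simp only [coe_filter, mem_filter, mem_range, Set.mem_ofPred_eq] at hW hW0 ⊢
        refine ⟨Nat.mod_lt _ hP, ?_⟩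
        refine cancel_top p M M' (V p (M + M') x (p ^ M' * w)) _ _ (V_lt p _ _ _) (V_lt p _ _ _) ?_
        rw [← COC p M M' x w _ hw.1 (Nat.mod_lt _ hP), ← COC p M M' x w _ hw.1 (Nat.mod_lt _ hP)]
        have a1 : p ^ M' * w + W % p ^ M' = W := by rw [← hW.2, Nat.div_add_mod]
        have a2 : p ^ M' * w + W0 % p ^ M' = W0 := by rw [← hW0.2, Nat.div_add_mod]
        rw [a1, a2, hW.1.2, hW0.1.2]
      · intro W hW W' hW' hh
        simp only [coe_filter, mem_filter, mem_range, Set.mem_ofPred_eq] at hW hW' hh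
        rw [← Nat.div_add_mod W (p ^ M'), ← Nat.div_add_mod W' (p ^ M'), hW.2, hW'.2, hh]

theorem SUBk (M k : ℕ) : NN p (k * M) ≤ NN p M ^ k := by
  induction k with
  | zero => have := NN_le p 0; simpa using this
  | succ k ih =>
    rw [Nat.succ_mul, pow_succ]
    exact (SUB p _ _).trans (Nat.mul_le_mul_right _ ih)

theorem hq_small (r : ℚ) (n : ℕ) (h : (p : ℤ) ∣ (harmonic n - r).num) :
    ‖hq p n - (r : ℚ_[p])‖ ≤ (p : ℝ) ^ (-1 : ℤ) := by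
  unfold hq
  rw [← Rat.cast_sub]
  set q := harmonic n - r
  have hd : ¬ p ∣ q.den := by
    intro hd
    have h1 : p ∣ q.num.natAbs := Int.natCast_dvd.1 h
    have h2 := Nat.dvd_gcd h1 hd
    rw [q.reduced] at h2
    exact hp.out.one_lt.ne' (Nat.dvd_one.1 h2)
  have h3 := inv_norm_le p 1 q.den (by rwa [pow_one])
  have h4 : ‖((q.num : ℤ) : ℚ_[p])‖ ≤ (p : ℝ) ^ (-((1 : ℕ) : ℤ)) := by
    rw [Padic.norm_int_le_pow_iff_dvd]; simpa using h
  rw [Rat.cast_def, div_eq_mul_inv, norm_mul]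
  have h5 : ‖((q.den : ℕ) : ℚ_[p])⁻¹‖ ≤ 1 := by simpa using h3
  calc _ ≤ (p : ℝ) ^ (-((1 : ℕ) : ℤ)) * 1 := by
        have := p_pos p
        gcongr
    _ = _ := by simp

theorem JFIB (r : ℚ) (M x w w' : ℕ) (hw : w < p ^ M) (hw' : w' < p ^ M)
    (h : (p : ℤ) ∣ (harmonic (p ^ M * x + w) - r).num)
    (h' : (p : ℤ) ∣ (harmonic (p ^ M * x + w') - r).num) : V p M x w = V p M x w' := by
  refine red_congr p M _ _ (psi_int p M x w hw) (psi_int p M x w' hw') ?_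
  have h1 := nsub p _ _ _ (hq_small p r _ h) (hq_small p r _ h')
  have e : psi p M x w - psi p M x w'
      = (p : ℚ_[p]) ^ M / p * (hq p (p ^ M * x + w) - r - (hq p (p ^ M * x + w') - r)) := by
    unfold psi; ring
  rw [e, norm_mul, norm_coef]
  calc _ ≤ (p : ℝ) ^ (1 - (M : ℤ)) * (p : ℝ) ^ (-1 : ℤ) :=
        mul_le_mul_of_nonneg_left h1 (zpow_pos (p_pos p) _).le
    _ = _ := by rw [← zpow_add₀ (p_pos p).ne']; congr 1; ring

theorem block_count (r : ℚ) (M x : ℕ) (S : Finset ℕ)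
    (hS : ∀ n ∈ S, (p : ℤ) ∣ (harmonic n - r).num)
    (hx : ∀ n ∈ S, n / p ^ M = x) : S.card ≤ NN p M := by
  have hP : 0 < p ^ M := pow_pos hp.out.pos _
  rcases S.eq_empty_or_nonempty with he | ⟨n0, hn0⟩
  · rw [he]; simp
  · refine le_trans (card_le_card_of_injOn (fun W => W % p ^ M) ?_ ?_)
      (CAP p M x (V p M x (n0 % p ^ M)))
    · intro n hn
      simp only [coe_filter, mem_range, Set.mem_ofPred_eq, mem_coe] at hn ⊢
      refine ⟨Nat.mod_lt _ hP, JFIB p r M x _ _ (Nat.mod_lt _ hP) (Nat.mod_lt _ hP) ?_ ?_⟩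
      · rw [← hx n hn, Nat.div_add_mod]; exact hS n hn
      · rw [← hx n0 hn0, Nat.div_add_mod]; exact hS n0 hn0
    · intro W hW W' hW' hh
      simp only [mem_coe] at hW hW' hh
      rw [← Nat.div_add_mod W (p ^ M), ← Nat.div_add_mod W' (p ^ M), hx W hW, hx W' hW', hh]

theorem interval_count (r : ℚ) (M y x : ℕ) (hx : x ≤ p ^ M) :
    ((Ico y (y + x)).filter (fun n => (p : ℤ) ∣ (harmonic n - r).num)).card ≤ 2 * NN p M := by
  have hP : 0 < p ^ M := pow_pos hp.out.pos _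
  set S := (Ico y (y + x)).filter (fun n => (p : ℤ) ∣ (harmonic n - r).num) with hS
  have h0 := card_filter_add_card_filter_not (s := S) (fun n => n / p ^ M = y / p ^ M)
  have h1 := block_count p r M (y / p ^ M) (S.filter (fun n => n / p ^ M = y / p ^ M))
    (fun n hn => (mem_filter.1 (mem_filter.1 hn).1).2) (fun n hn => (mem_filter.1 hn).2)
  have h2 := block_count p r M (y / p ^ M + 1) (S.filter (fun n => ¬ n / p ^ M = y / p ^ M))
    (fun n hn => (mem_filter.1 (mem_filter.1 hn).1).2) (by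
      intro n hn
      have a1 := (mem_filter.1 hn).2
      have a2 := mem_Ico.1 (mem_filter.1 (mem_filter.1 hn).1).1
      have a3 : y / p ^ M ≤ n / p ^ M := Nat.div_le_div_right a2.1
      have a4 : n / p ^ M ≤ (y + p ^ M) / p ^ M := Nat.div_le_div_right (by omega)
      rw [Nat.add_div_right _ hP] at a4
      omega)
  omega

theorem FINAL (h : ∀ e : ℝ, 0 < e → ∃ M : ℕ, 1 ≤ M ∧ Real.log (NN p M) ≤ e * M)
    (ε : ℝ) (hε : 0 < ε) : ∃ C : ℝ, ∀ (r : ℚ) (y x : ℕ), 1 ≤ x →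
      (((Ico y (y + x)).filter (fun n => (p : ℤ) ∣ (harmonic n - r).num)).card : ℝ)
        ≤ C * (x : ℝ) ^ ε := by
  have lp : 0 < Real.log p := Real.log_pos (p_one_lt p)
  obtain ⟨M, hM, hN⟩ := h (ε * Real.log p) (mul_pos hε lp)
  have N1 : (1 : ℝ) ≤ NN p M := by exact_mod_cast one_le_NN p M
  refine ⟨2 * NN p M, fun r y x hx => ?_⟩
  have hb : 1 < p ^ M := Nat.one_lt_pow (by omega) hp.out.one_lt
  set k := Nat.log (p ^ M) x with hk
  have k1 : (p ^ M) ^ k ≤ x := Nat.pow_log_le_self _ (by omega)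
  have k2 : x < (p ^ M) ^ (k + 1) := Nat.lt_pow_succ_log_self hb x
  have c1 := interval_count p r ((k + 1) * M) y x (by rw [mul_comm, pow_mul]; exact k2.le)
  have c2 := SUBk p M (k + 1)
  have c3 : (((Ico y (y + x)).filter (fun n => (p : ℤ) ∣ (harmonic n - r).num)).card : ℝ)
      ≤ 2 * (NN p M : ℝ) ^ (k + 1) := by
    exact_mod_cast c1.trans (Nat.mul_le_mul_left _ c2)
  have x0 : (0 : ℝ) < x := by exact_mod_cast hx
  have c4 : (NN p M : ℝ) ^ k ≤ (x : ℝ) ^ ε := by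
    rw [← Real.log_le_log_iff (by positivity) (Real.rpow_pos_of_pos x0 _), Real.log_pow,
      Real.log_rpow x0]
    have c5 : (k : ℝ) * (M * Real.log p) ≤ Real.log x := by
      rw [← Real.log_pow, ← Real.log_pow]
      have := p_pos p
      refine Real.log_le_log (by positivity) ?_
      exact_mod_cast k1
    calc (k : ℝ) * Real.log (NN p M) ≤ k * (ε * Real.log p * M) :=
          mul_le_mul_of_nonneg_left hN (Nat.cast_nonneg k)
      _ = ε * (k * (M * Real.log p)) := by ring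
      _ ≤ _ := mul_le_mul_of_nonneg_left c5 hε.le
  calc _ ≤ 2 * (NN p M : ℝ) ^ (k + 1) := c3
    _ = 2 * NN p M * (NN p M : ℝ) ^ k := by ring
    _ ≤ _ := mul_le_mul_of_nonneg_left c4 (by positivity)

theorem lagr {K : Type} [Field K] (t : Finset ℕ) (v : ℕ → K) (hv : Set.InjOn v t)
    (ht : t.Nonempty) (z : K) (hz : ∀ i ∈ t, z ≠ v i) :
    ∑ i ∈ t, Lagrange.nodalWeight t v i * (z - v i)⁻¹ = ∏ i ∈ t, (z - v i)⁻¹ := by
  have h1 := Lagrange.eval_interpolate_not_at_node (s := t) (v := v) 1 hz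
  rw [Lagrange.interpolate_one hv ht, Lagrange.eval_nodal] at h1
  simp only [Pi.one_apply, mul_one, Polynomial.eval_one] at h1
  rw [prod_inv_distrib]
  exact (eq_inv_of_mul_eq_one_right h1.symm)

omit hp in
theorem exists_level (M u w w' : ℕ) (hw : w < p ^ M) (hlt : w' < w)
    (hu : w / p ^ (M - u) ≠ w' / p ^ (M - u)) :
    ∃ e, M - u ≤ e ∧ e < M ∧ w / p ^ e ≠ w' / p ^ e ∧ w / p ^ (e + 1) = w' / p ^ (e + 1) := by
  by_contra hcon
  push Not at hcon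
  have key : ∀ d, M - u + d ≤ M → w / p ^ (M - u + d) ≠ w' / p ^ (M - u + d) := by
    intro d
    induction d with
    | zero => intro _; exact hu
    | succ d ih =>
      intro hd
      exact hcon (M - u + d) (by omega) (by omega) (ih (by omega))
  have h1 := key (M - (M - u)) (by omega)
  have e : M - u + (M - (M - u)) = M := by omega
  rw [e, Nat.div_eq_of_lt hw, Nat.div_eq_of_lt (hlt.trans hw)] at h1
  exact h1 rfl

theorem count_dvd (q w w' : ℕ) (h : w' ≤ w) :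
    ((Ioc w' w).filter (fun j => q ∣ j)).card + w' / q = w / q := by
  rw [← Nat.Ioc_filter_dvd_card_eq_div, ← Nat.Ioc_filter_dvd_card_eq_div, add_comm,
    ← card_union_of_disjoint, ← filter_union, Ioc_union_Ioc_eq_Ioc (Nat.zero_le _) h]
  refine disjoint_filter_filter ?_
  rw [disjoint_left]
  intro a h1 h2
  rw [mem_Ioc] at h1 h2
  omega

theorem small_term (t : Finset ℕ) (ht : t.Nonempty) (M e j : ℕ) (he : e ≤ M) (hj : ¬ p ^ e ∣ j) :
    ‖∏ i ∈ t, (p : ℚ_[p]) ^ e * (((p ^ M * i + j : ℕ) : ℚ_[p]))⁻¹‖ ≤ (p : ℝ) ^ (-1 : ℤ) := by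
  have pp := p_pos p
  have hb : ∀ i, ‖(p : ℚ_[p]) ^ e * (((p ^ M * i + j : ℕ) : ℚ_[p]))⁻¹‖ ≤ (p : ℝ) ^ (-1 : ℤ) := by
    intro i
    have h1 : ¬ p ^ e ∣ p ^ M * i + j := by
      intro h
      exact hj ((Nat.dvd_add_right (Dvd.dvd.mul_right (pow_dvd_pow p he) i)).1 h)
    have h2 := inv_norm_le p e _ h1
    rw [norm_mul, Padic.norm_p_pow]
    calc _ ≤ (p : ℝ) ^ (-e : ℤ) * (p : ℝ) ^ ((e : ℤ) - 1) := by gcongr
      _ = _ := by rw [← zpow_add₀ pp.ne']; congr 1; ring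
  obtain ⟨i0, hi0⟩ := ht
  rw [← mul_prod_erase t _ hi0, norm_mul, norm_prod]
  have h3 : (p : ℝ) ^ (-1 : ℤ) ≤ 1 := by
    have := zp_mono p (-1) 0 (by norm_num); simpa using this
  have h4 : ∏ i ∈ t.erase i0, ‖(p : ℚ_[p]) ^ e * (((p ^ M * i + j : ℕ) : ℚ_[p]))⁻¹‖ ≤ 1 :=
    prod_le_one (fun _ _ => norm_nonneg _) (fun i _ => (hb i).trans h3)
  calc _ ≤ (p : ℝ) ^ (-1 : ℤ) * 1 := by
        have := hb i0
        gcongr
    _ = _ := mul_one _

theorem unit_term (t : Finset ℕ) (ht : t.card = p - 1) (M e j : ℕ) (he : e < M) (hj : p ^ e ∣ j)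
    (hj' : ¬ p ^ (e + 1) ∣ j) :
    ‖∏ i ∈ t, (p : ℚ_[p]) ^ e * (((p ^ M * i + j : ℕ) : ℚ_[p]))⁻¹ - 1‖ ≤ (p : ℝ) ^ (-1 : ℤ) := by
  obtain ⟨j0, rfl⟩ := hj
  obtain ⟨d, rfl⟩ : ∃ d, M = e + (d + 1) := ⟨M - e - 1, by omega⟩
  have h0 : ¬ p ∣ j0 := by
    intro h; apply hj'; rw [pow_succ]; exact Nat.mul_dvd_mul_left _ h
  have pe : (p : ℚ_[p]) ^ e ≠ 0 := pow_ne_zero _ (p_ne p)
  have h1 : ∀ i ∈ t, (p : ℚ_[p]) ^ e * (((p ^ (e + (d + 1)) * i + p ^ e * j0 : ℕ) : ℚ_[p]))⁻¹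
      = (((p ^ (d + 1) * i + j0 : ℕ) : ℚ_[p]))⁻¹ := by
    intro i _
    have : p ^ (e + (d + 1)) * i + p ^ e * j0 = p ^ e * (p ^ (d + 1) * i + j0) := by ring
    rw [this, Nat.cast_mul, Nat.cast_pow, mul_inv, ← mul_assoc, mul_inv_cancel₀ pe, one_mul]
  rw [prod_congr rfl h1, prod_inv_distrib, ← Nat.cast_prod]
  set P := ∏ i ∈ t, (p ^ (d + 1) * i + j0) with hP
  have h2 : (P : ZMod p) = ((1 : ℕ) : ZMod p) := by
    have hz : (j0 : ZMod p) ≠ 0 := by rwa [Ne, ZMod.natCast_eq_zero_iff]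
    rw [hP]; push_cast
    simp only [ZMod.natCast_self, pow_succ, mul_zero, zero_mul, zero_add, prod_const, ht]
    exact ZMod.pow_card_sub_one_eq_one hz
  rw [ZMod.natCast_eq_natCast_iff'] at h2
  have h3 := norm_of_mod_eq p 1 1 P (by rw [pow_one]; exact h2.symm)
  have h4 : ¬ p ^ 1 ∣ P := by
    rw [pow_one]; intro h
    rw [Nat.mod_eq_zero_of_dvd h, Nat.mod_eq_of_lt hp.out.one_lt] at h2
    exact zero_ne_one h2
  have h5 : ‖((P : ℕ) : ℚ_[p])⁻¹‖ ≤ 1 := by simpa using inv_norm_le p 1 P h4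
  have h6 : (P : ℚ_[p]) ≠ 0 := by
    have : P ≠ 0 := by rintro h; exact h4 (h ▸ dvd_zero _)
    exact_mod_cast this
  have e1 : ((P : ℚ_[p]))⁻¹ - 1 = (((1 : ℕ) : ℚ_[p]) - P) * ((P : ℚ_[p]))⁻¹ := by
    push_cast; field_simp
  rw [e1, norm_mul]
  have pp := p_pos p
  calc _ ≤ (p : ℝ) ^ (-((1 : ℕ) : ℤ)) * 1 := by gcongr
    _ = _ := by simp

theorem T_norm (t : Finset ℕ) (ht : t.card = p - 1) (M e w w' : ℕ) (he : e < M) (hlt : w' ≤ w)
    (h1 : w / p ^ e ≠ w' / p ^ e) (h2 : w / p ^ (e + 1) = w' / p ^ (e + 1)) :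
    1 ≤ ‖∑ j ∈ Ioc w' w, ∏ i ∈ t, (p : ℚ_[p]) ^ e * (((p ^ M * i + j : ℕ) : ℚ_[p]))⁻¹‖ := by
  have pp := p_pos p
  have p2 := hp.out.two_le
  have hne : t.Nonempty := card_pos.1 (by omega)
  have c1 := count_dvd (p ^ e) w w' hlt
  have c2 := count_dvd (p ^ (e + 1)) w w' hlt
  have c3 : ((Ioc w' w).filter (fun j => p ^ (e + 1) ∣ j)).card = 0 := by omega
  rw [card_eq_zero, filter_eq_empty_iff] at c3
  set g := ((Ioc w' w).filter (fun j => p ^ e ∣ j)).card with hg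
  have g0 : 0 < g := by omega
  have g1 : g < p := by
    rw [pow_succ, ← Nat.div_div_eq_div_mul, ← Nat.div_div_eq_div_mul, ← c1] at h2
    by_contra hc
    have a1 : (w' / p ^ e + p) / p ≤ (g + w' / p ^ e) / p := Nat.div_le_div_right (by omega)
    rw [Nat.add_div_right _ hp.out.pos] at a1
    omega
  have hgs : (g : ℚ_[p]) = ∑ j ∈ Ioc w' w, (if p ^ e ∣ j then (1 : ℚ_[p]) else 0) := by
    rw [hg, card_filter]; push_cast; rfl
  have h3 : ‖(∑ j ∈ Ioc w' w, ∏ i ∈ t, (p : ℚ_[p]) ^ e * (((p ^ M * i + j : ℕ) : ℚ_[p]))⁻¹)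
      - (g : ℚ_[p])‖ ≤ (p : ℝ) ^ (-1 : ℤ) := by
    rw [hgs, ← sum_sub_distrib]
    refine IsUltrametricDist.norm_sum_le_of_forall_le_of_nonneg (zpow_pos pp _).le ?_
    intro j hj
    split_ifs with hd
    · exact unit_term p t ht M e j he hd (c3 hj)
    · rw [sub_zero]; exact small_term p t hne M e j he.le hd
  by_contra hc
  rw [not_le] at hc
  have h4 : ‖∑ j ∈ Ioc w' w, ∏ i ∈ t, (p : ℚ_[p]) ^ e * (((p ^ M * i + j : ℕ) : ℚ_[p]))⁻¹‖
      ≤ (p : ℝ) ^ (-1 : ℤ) := by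
    rw [Padic.norm_le_pow_iff_norm_lt_pow_add_one]; simpa using hc
  have h5 := nsub p _ _ _ h4 h3
  rw [sub_sub_cancel] at h5
  have h6 := mod_eq_of_norm p 1 g 0 (by simpa using h5)
  rw [pow_one, Nat.mod_eq_of_lt g1, Nat.zero_mod] at h6
  omega

theorem weight_norm (t : Finset ℕ) (M m : ℕ) (hinj : Set.InjOn (fun x => x % p ^ m) t)
    (i : ℕ) (hi : i ∈ t) :
    ‖Lagrange.nodalWeight t (fun x : ℕ => -((p ^ M * x : ℕ) : ℚ_[p])) i‖
      ≤ ((p : ℝ) ^ ((M : ℤ) + m)) ^ (t.card - 1) := by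
  have pp := p_pos p
  unfold Lagrange.nodalWeight
  rw [norm_prod, ← card_erase_of_mem hi, ← prod_const]
  refine prod_le_prod (fun _ _ => norm_nonneg _) ?_
  intro k hk
  rw [mem_erase] at hk
  have h1 : ¬ ‖(k : ℚ_[p]) - (i : ℚ_[p])‖ ≤ (p : ℝ) ^ (-m : ℤ) := by
    intro h
    exact hk.1 (hinj hk.2 hi (mod_eq_of_norm p m k i h))
  rw [not_le] at h1
  have e : -((p ^ M * i : ℕ) : ℚ_[p]) - -((p ^ M * k : ℕ) : ℚ_[p])
      = (p : ℚ_[p]) ^ M * ((k : ℚ_[p]) - i) := by push_cast; ring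
  rw [e, norm_inv, norm_mul, Padic.norm_p_pow]
  have e2 : (p : ℝ) ^ ((M : ℤ) + m) = ((p : ℝ) ^ (-M : ℤ) * (p : ℝ) ^ (-m : ℤ))⁻¹ := by
    rw [← zpow_add₀ pp.ne', ← zpow_neg]; congr 1; ring
  rw [e2]
  refine inv_anti₀ (by positivity) ?_
  gcongr

theorem SEP (M u m w w' : ℕ) (hw : w < p ^ M) (hlt : w' < w)
    (hu : w / p ^ (M - u) ≠ w' / p ^ (M - u)) (hM : p * (u + m) ≤ M) (s : Finset ℕ)
    (hs : ∀ x ∈ s, V p M x w = V p M x w') : (s.image (fun x => x % p ^ m)).card ≤ p - 2 := by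
  have pp := p_pos p
  have p2 := hp.out.two_le
  by_contra hc
  obtain ⟨t0, ht0, hc0⟩ := exists_subset_card_eq (s := s.image (fun x => x % p ^ m))
    (n := p - 1) (by omega)
  obtain ⟨t, hts, hinj, him⟩ := exists_subset_injOn_image_eq_of_surjOn (f := fun x => x % p ^ m)
    (s : Set ℕ) t0 (by
      intro a ha
      have := ht0 ha
      rw [mem_image] at this
      obtain ⟨b, hb, rfl⟩ := this
      exact ⟨b, hb, rfl⟩)
  have ht : t.card = p - 1 := by rw [← hc0, ← him, card_image_of_injOn hinj]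
  have hne : t.Nonempty := card_pos.1 (by omega)
  obtain ⟨e, e1, e2, e3, e4⟩ := exists_level p M u w w' hw hlt hu
  have T := T_norm p t ht M e w w' e2 hlt.le e3 e4
  set v : ℕ → ℚ_[p] := fun x : ℕ => -((p ^ M * x : ℕ) : ℚ_[p]) with hv
  have hvinj : Set.InjOn v t := by
    intro a _ b _ hab
    simp only [hv, neg_inj, Nat.cast_inj] at hab
    exact Nat.eq_of_mul_eq_mul_left (pow_pos hp.out.pos _) hab
  have hD : ∀ i ∈ t, ‖∑ j ∈ Ioc w' w, (p : ℚ_[p]) ^ M / p * (((p ^ M * i + j : ℕ) : ℚ_[p]))⁻¹‖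
      ≤ (p : ℝ) ^ (-M : ℤ) := by
    intro i hi
    have a1 := V_spec p M i w hw
    have a2 := V_spec p M i w' (hlt.trans hw)
    rw [← hs i (hts hi)] at a2
    have a3 := nsub p _ _ _ a1 a2
    rw [sub_sub_sub_cancel_right, psi_eq, psi_eq,
      ← sum_Ioc_consecutive _ (Nat.zero_le w') hlt.le, add_sub_cancel_left] at a3
    exact a3
  have hL : ∀ j ∈ Ioc w' w, ∏ i ∈ t, (p : ℚ_[p]) ^ e * (((p ^ M * i + j : ℕ) : ℚ_[p]))⁻¹
      = ∑ i ∈ t, ((p : ℚ_[p]) ^ e) ^ (p - 1) * ((p : ℚ_[p]) ^ M / p)⁻¹ *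
        (Lagrange.nodalWeight t v i *
          ((p : ℚ_[p]) ^ M / p * (((p ^ M * i + j : ℕ) : ℚ_[p]))⁻¹)) := by
    intro j hj
    rw [mem_Ioc] at hj
    have b0 : ∀ i : ℕ, (j : ℚ_[p]) - v i = ((p ^ M * i + j : ℕ) : ℚ_[p]) := by
      intro i; simp only [hv]; push_cast; ring
    have b1 := lagr t v hvinj hne (j : ℚ_[p]) (by
      intro i _ h
      have b2 := b0 i
      rw [h, sub_self] at b2
      have b3 : p ^ M * i + j = 0 := by exact_mod_cast b2.symm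
      omega)
    simp only [b0] at b1
    rw [prod_mul_distrib, prod_const, ht, ← b1, mul_sum]
    refine sum_congr rfl fun i _ => ?_
    have b4 : (p : ℚ_[p]) ^ M / p ≠ 0 := div_ne_zero (pow_ne_zero _ (p_ne p)) (p_ne p)
    generalize (p : ℚ_[p]) ^ M / p = A at *
    field_simp
  rw [sum_congr rfl hL, sum_comm] at T
  have hB : ‖∑ i ∈ t, ∑ j ∈ Ioc w' w, ((p : ℚ_[p]) ^ e) ^ (p - 1) * ((p : ℚ_[p]) ^ M / p)⁻¹ *
        (Lagrange.nodalWeight t v i *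
          ((p : ℚ_[p]) ^ M / p * (((p ^ M * i + j : ℕ) : ℚ_[p]))⁻¹))‖ ≤ (p : ℝ) ^ (-1 : ℤ) := by
    refine IsUltrametricDist.norm_sum_le_of_forall_le_of_nonneg (zpow_pos pp _).le ?_
    intro i hi
    rw [← mul_sum, ← mul_sum, norm_mul, norm_mul, norm_mul, norm_inv, norm_coef, norm_pow,
      Padic.norm_p_pow]
    have d1 := weight_norm p t M m hinj i hi
    have d2 := hD i hi
    rw [ht] at d1
    obtain ⟨r, hr⟩ : ∃ r, p = r + 2 := ⟨p - 2, by omega⟩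
    have r1 : p - 1 = r + 1 := by omega
    have r2 : r + 1 - 1 = r := by omega
    rw [r1] at d1 ⊢
    rw [r2] at d1
    calc _ ≤ ((p : ℝ) ^ (-e : ℤ)) ^ (r + 1) * ((p : ℝ) ^ (1 - (M : ℤ)))⁻¹ *
          (((p : ℝ) ^ ((M : ℤ) + m)) ^ r * (p : ℝ) ^ (-M : ℤ)) := by gcongr
      _ = (p : ℝ) ^ (-(e : ℤ) * (r + 1 : ℕ) + -(1 - (M : ℤ)) + (((M : ℤ) + m) * r + -M)) := by
          rw [← zpow_natCast, ← zpow_natCast, ← zpow_mul, ← zpow_mul, ← zpow_neg,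
            ← zpow_add₀ pp.ne', ← zpow_add₀ pp.ne', ← zpow_add₀ pp.ne']
      _ ≤ _ := by
          refine zp_mono p _ _ ?_
          have f1 : (M : ℤ) ≤ e + u := by omega
          have f2 : ((r : ℤ) + 2) * (u + m) ≤ M := by
            rw [hr] at hM; exact_mod_cast hM
          have f3 : (0 : ℤ) ≤ r := Nat.cast_nonneg r
          have f4 : (0 : ℤ) ≤ u := Nat.cast_nonneg u
          have f5 : (0 : ℤ) ≤ m := Nat.cast_nonneg m
          push_cast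
          nlinarith [mul_le_mul_of_nonneg_right f1 (by linarith : (0 : ℤ) ≤ r + 1)]
  have hlast : (p : ℝ) ^ (-1 : ℤ) < 1 := by
    rw [zpow_neg, zpow_one]; exact inv_lt_one_of_one_lt₀ (p_one_lt p)
  linarith

end H77jP
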