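import Mathlib

/-! Resultant estimates for the numerators of short harmonic blocks. -/

open Polynomial Finset

namespace Pool.Agent.MP_7915da_nt

lemma sum_shift_coeff (g : ℤ[X]) (N j n : ℕ) (hg : g.natDegree ≤ n) (hj : j + n < N) (x : ℤ) :
    ∑ i ∈ range N, x ^ i * (if i ∈ Set.Icc j (j + n) then g.coeff (i - j) else 0)
      = x ^ j * g.eval x := by
  have h1 : ∑ i ∈ range N, x ^ i * (if i ∈ Set.Icc j (j + n) then g.coeff (i - j) else 0)
      = ∑ i ∈ Ico j (j + n + 1), x ^ i * g.coeff (i - j) := by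
    symm
    apply Finset.sum_subset_zero_on_sdiff
    · intro i hi
      simp only [mem_Ico, mem_range] at hi ⊢
      omega
    · intro i hi
      simp only [mem_sdiff, mem_Ico, mem_range] at hi
      rw [if_neg, mul_zero]
      simp only [Set.mem_Icc]
      omega
    · intro i hi
      simp only [mem_Ico] at hi
      rw [if_pos]
      simp only [Set.mem_Icc]
      omega
  rw [h1, Finset.sum_Ico_eq_sum_range, eval_eq_sum_range' (n := n + 1) (by omega), mul_sum]
  have : j + n + 1 - j = n + 1 := by omega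
  rw [this]
  refine sum_congr rfl fun i _ => ?_
  rw [Nat.add_sub_cancel_left, pow_add]
  ring

lemma pow_dvd_det {N : ℕ} (M : Matrix (Fin N) (Fin N) ℤ) (p : ℤ) (K : Finset (Fin N))
    (h : ∀ k ∈ K, ∀ j, p ∣ M k j) : p ^ K.card ∣ M.det := by
  classical
  have hM : M = Matrix.diagonal (fun k => if k ∈ K then p else 1) *
      Matrix.of (fun k j => if k ∈ K then M k j / p else M k j) := by
    ext k j
    rw [Matrix.diagonal_mul, Matrix.of_apply]
    split_ifs with hk
    · exact (Int.mul_ediv_cancel' (h k hk j)).symm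
    · simp
  rw [hM, Matrix.det_mul, Matrix.det_diagonal, Finset.prod_ite_mem, Finset.univ_inter,
    Finset.prod_const]
  exact dvd_mul_right _ _

lemma pow_dvd_resultant (f g : ℤ[X]) (m n p : ℕ) (hp : p.Prime) (hf : f.natDegree ≤ m)
    (hg : g.natDegree ≤ n) (hmn : m + n ≤ p) (A : Finset ℕ) (hA : A ⊆ range p)
    (hc : A.card ≤ m + n) (h : ∀ a ∈ A, (p : ℤ) ∣ f.eval (a : ℤ) ∧ (p : ℤ) ∣ g.eval (a : ℤ)) :
    (p : ℤ) ^ A.card ∣ resultant f g m n := by
  classical
  obtain ⟨B, hAB, hBp, hB⟩ := Finset.exists_subsuperset_card_eq hA hc (by simpa using hmn)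
  set v := B.orderEmbOfFin hB with hv
  have hvB : ∀ i, v i ∈ B := fun i => Finset.orderEmbOfFin_mem B hB i
  set W : Matrix (Fin (m + n)) (Fin (m + n)) ℤ := Matrix.vandermonde (fun i => (v i : ℤ)) with hW
  set K : Finset (Fin (m + n)) := univ.filter (fun i => v i ∈ A) with hK
  have hKc : K.card = A.card := by
    apply Finset.card_bij (fun i _ => v i)
    · intro i hi
      simpa [hK] using hi
    · intro i _ j _ hij
      exact v.injective hij
    · intro a ha
      have : a ∈ Set.range v := by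
        rw [hv, Finset.range_orderEmbOfFin]
        exact hAB ha
      obtain ⟨i, rfl⟩ := this
      exact ⟨i, by simpa [hK] using ha, rfl⟩
  have hd : (p : ℤ) ^ K.card ∣ (W * sylvester f g m n).det := by
    apply pow_dvd_det
    intro k hk j
    have hk' : v k ∈ A := by simpa [hK] using hk
    rw [Matrix.mul_apply]
    induction j using Fin.addCases with
    | left j =>
      simp only [hW, Matrix.vandermonde_apply, sylvester, Matrix.of_apply, Fin.addCases_left]
      rw [Fin.sum_univ_eq_sum_range (fun i => ((v k : ℕ) : ℤ) ^ i *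
        (if i ∈ Set.Icc (j : ℕ) (j + n) then g.coeff (i - j) else 0)),
        sum_shift_coeff g _ _ _ hg (by omega)]
      exact Dvd.dvd.mul_left (h _ hk').2 _
    | right j =>
      simp only [hW, Matrix.vandermonde_apply, sylvester, Matrix.of_apply, Fin.addCases_right]
      rw [Fin.sum_univ_eq_sum_range (fun i => ((v k : ℕ) : ℤ) ^ i *
        (if i ∈ Set.Icc (j : ℕ) (j + m) then f.coeff (i - j) else 0)),
        sum_shift_coeff f _ _ _ hf (by omega)]
      exact Dvd.dvd.mul_left (h _ hk').1 _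
  have hpp : Prime (p : ℤ) := Nat.prime_iff_prime_int.mp hp
  have hWd : ¬ (p : ℤ) ∣ W.det := by
    rw [hW, Matrix.det_vandermonde]
    intro hdv
    obtain ⟨i, _, hi⟩ := (hpp.dvd_finsetProd_iff _).mp hdv
    obtain ⟨j, hj, hij⟩ := (hpp.dvd_finsetProd_iff _).mp hi
    have h1 : v i < v j := v.strictMono (mem_Ioi.mp hj)
    have h2 : v j < p := mem_range.mp (hBp (hvB j))
    have := Int.le_of_dvd (by omega) hij
    omega
  rw [Matrix.det_mul, hKc] at hd
  exact hpp.pow_dvd_of_dvd_mul_left _ hWd hd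

/-- The numerator polynomial of the block sum over `a < i ≤ b` of `1/(x+i)`. -/
noncomputable def F (a b : ℕ) : ℤ[X] := derivative (∏ i ∈ Ioc a b, (X + C (i : ℤ)))

lemma aeval_deriv_prod {K : Type*} [Field K] (I : Finset ℕ) (x : K)
    (h : ∀ i ∈ I, x + (i : K) ≠ 0) :
    aeval x (derivative (∏ i ∈ I, (X + C (i : ℤ) : ℤ[X])))
      = (∏ i ∈ I, (x + (i : K))) * ∑ i ∈ I, (x + (i : K))⁻¹ := by
  classical
  induction I using Finset.induction_on with
  | empty => simp
  | insert a s ha ih =>
    have h1 := ih (fun i hi => h i (mem_insert_of_mem hi))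
    have h2 := h a (mem_insert_self _ _)
    rw [prod_insert ha, prod_insert ha, sum_insert ha, derivative_mul, map_add, map_mul, map_mul,
      h1]
    simp only [derivative_add, derivative_X, derivative_C, add_zero, map_one, one_mul, map_add,
      aeval_X, map_prod, eq_intCast, Int.cast_natCast, map_natCast, derivative_natCast]
    field_simp

lemma monic_P (I : Finset ℕ) : (∏ i ∈ I, (X + C (i : ℤ) : ℤ[X])).Monic :=
  monic_prod_of_monic _ _ fun i _ => monic_X_add_C _

lemma natDegree_P (I : Finset ℕ) : (∏ i ∈ I, (X + C (i : ℤ) : ℤ[X])).natDegree = I.card := by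
  rw [natDegree_prod_of_monic _ _ fun i _ => monic_X_add_C _]
  simp only [natDegree_X_add_C, sum_const, smul_eq_mul, mul_one]

lemma natDegree_F (a b : ℕ) : (F a b).natDegree ≤ b - a - 1 := by
  have := natDegree_derivative_le (∏ i ∈ Ioc a b, (X + C (i : ℤ) : ℤ[X]))
  rwa [natDegree_P, Nat.card_Ioc] at this

lemma coeff_F_top (a b : ℕ) (hab : a < b) : (F a b).coeff (b - a - 1) = ((b - a : ℕ) : ℤ) := by
  have h1 := (monic_P (Ioc a b)).coeff_natDegree
  rw [natDegree_P, Nat.card_Ioc] at h1
  have h2 : b - a - 1 + 1 = b - a := by omega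
  rw [F, coeff_derivative, h2, h1, one_mul]
  omega

lemma coeff_P_le (s : ℕ) (I : Finset ℕ) (hI : ∀ i ∈ I, i ≤ s) (k : ℕ) :
    |(∏ i ∈ I, (X + C (i : ℤ) : ℤ[X])).coeff k| ≤ ((s : ℤ) + 1) ^ I.card := by
  classical
  induction I using Finset.induction_on generalizing k with
  | empty =>
    simp only [prod_empty, card_empty, pow_zero, coeff_one]
    split_ifs <;> simp
  | insert a t ha ih =>
    have ih' := ih (fun i hi => hI i (mem_insert_of_mem hi))
    have has : (a : ℤ) ≤ s := by exact_mod_cast hI a (mem_insert_self _ _)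
    have hB : (0 : ℤ) ≤ ((s : ℤ) + 1) ^ t.card := by positivity
    rw [prod_insert ha, card_insert_of_notMem ha, add_mul, coeff_add, coeff_C_mul, pow_succ]
    have h1 : |(X * ∏ i ∈ t, (X + C (i : ℤ) : ℤ[X])).coeff k| ≤ ((s : ℤ) + 1) ^ t.card := by
      cases k with
      | zero => simpa using hB
      | succ k => rw [coeff_X_mul]; exact ih' k
    have h2 : |(a : ℤ) * (∏ i ∈ t, (X + C (i : ℤ) : ℤ[X])).coeff k|
        ≤ s * ((s : ℤ) + 1) ^ t.card := by
      rw [abs_mul, Nat.abs_cast]
      exact mul_le_mul has (ih' k) (abs_nonneg _) (by positivity)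
    calc _ ≤ _ := abs_add_le _ _
      _ ≤ _ := add_le_add h1 h2
      _ = _ := by ring

lemma coeff_F_le (s a b : ℕ) (hb : b ≤ s) (k : ℕ) :
    |(F a b).coeff k| ≤ ((s : ℤ) + 1) ^ (s + 1) := by
  by_cases hk : (F a b).natDegree < k
  · rw [coeff_eq_zero_of_natDegree_lt hk, abs_zero]
    positivity
  · have h1 := natDegree_F a b
    have hk' : k ≤ s := by omega
    rw [F, coeff_derivative, abs_mul, pow_succ]
    have h2 := coeff_P_le s (Ioc a b) (fun i hi => (mem_Ioc.mp hi).2.trans hb) (k + 1)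
    have h3 : ((s : ℤ) + 1) ^ (Ioc a b).card ≤ ((s : ℤ) + 1) ^ s :=
      pow_le_pow_right₀ (by omega) (by rw [Nat.card_Ioc]; omega)
    refine mul_le_mul (h2.trans h3) ?_ (abs_nonneg _) (by positivity)
    rw [abs_of_nonneg (by positivity)]
    omega

/-- The resultant of two adjacent blocks. -/
noncomputable def R (d e : ℕ) : ℤ := resultant (F 0 d) (F d (d + e))

lemma aeval_F_ne (a b : ℕ) (hab : a < b) (z : ℂ) (σ : ℝ)
    (h : ∀ i ∈ Ioc a b, 0 < σ * (z.re + i)) : aeval z (F a b) ≠ 0 := by
  have h0 : ∀ i ∈ Ioc a b, z + (i : ℂ) ≠ 0 := by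
    intro i hi h0
    have h1 := h i hi
    have h2 := congrArg Complex.re h0
    simp only [Complex.add_re, Complex.natCast_re, Complex.zero_re] at h2
    rw [h2] at h1
    simp at h1
  rw [F, aeval_deriv_prod _ _ h0]
  refine mul_ne_zero (prod_ne_zero_iff.mpr h0) fun hs => ?_
  have h1 := congrArg Complex.re hs
  rw [Complex.re_sum, Complex.zero_re] at h1
  have h2 : 0 < ∑ i ∈ Ioc a b, σ * ((z + (i : ℂ))⁻¹).re := by
    apply sum_pos _ (nonempty_Ioc.mpr hab)
    intro i hi
    rw [Complex.inv_re, ← mul_div_assoc]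
    apply div_pos
    · simpa using h i hi
    · exact Complex.normSq_pos.mpr (h0 i hi)
  rw [← mul_sum, h1] at h2
  simp at h2

lemma R_ne_zero (d e : ℕ) (hd : 1 ≤ d) (he : 1 ≤ e) : R d e ≠ 0 := by
  have hinj : Function.Injective (Int.castRingHom ℂ) := Int.cast_injective
  have hc : IsCoprime ((F 0 d).map (Int.castRingHom ℂ)) ((F d (d + e)).map (Int.castRingHom ℂ)) := by
    rw [Polynomial.isCoprime_iff_aeval_ne_zero_of_isAlgClosed ℂ ℂ]
    intro z
    have e1 : ∀ q : ℤ[X], aeval z (q.map (Int.castRingHom ℂ)) = aeval z q := fun q =>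
      aeval_map_algebraMap ℂ z q
    rw [e1, e1]
    rcases le_total (z.re + d + 1 / 2) 0 with hz | hz
    · left
      apply aeval_F_ne 0 d hd z (-1)
      intro i hi
      have : (i : ℝ) ≤ d := by exact_mod_cast (mem_Ioc.mp hi).2
      linarith
    · right
      apply aeval_F_ne d (d + e) (by omega) z 1
      intro i hi
      have : (d : ℝ) + 1 ≤ i := by exact_mod_cast (mem_Ioc.mp hi).1
      linarith
  have h1 := resultant_ne_zero _ _ hc
  rw [natDegree_map_eq_of_injective hinj, natDegree_map_eq_of_injective hinj,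
    resultant_map_map] at h1
  intro h0
  apply h1
  rw [show resultant (F 0 d) (F d (d + e)) = 0 from h0, map_zero]

lemma abs_R_le (d e : ℕ) : |R d e| ≤ (((d + e : ℕ) : ℤ) + 1) ^ ((d + e + 1) ^ 2) := by
  set s := d + e with hs
  have h1 := natDegree_F 0 d
  have h2 := natDegree_F d (d + e)
  set m := (F 0 d).natDegree
  set n := (F d (d + e)).natDegree
  have hmn : m + n ≤ s := by omega
  have hB : (0 : ℤ) ≤ ((s : ℤ) + 1) ^ (s + 1) := by positivity
  have h3 := Matrix.det_le (A := sylvester (F 0 d) (F d (d + e)) m n) (abv := AbsoluteValue.abs)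
    (x := ((s : ℤ) + 1) ^ (s + 1)) (by
      intro i j
      induction j using Fin.addCases with
      | left j =>
        simp only [sylvester, Matrix.of_apply, Fin.addCases_left, AbsoluteValue.abs_apply]
        split_ifs
        · exact coeff_F_le s _ _ le_rfl _
        · simpa using hB
      | right j =>
        simp only [sylvester, Matrix.of_apply, Fin.addCases_right, AbsoluteValue.abs_apply]
        split_ifs
        · exact coeff_F_le s _ _ (by omega) _
        · simpa using hB)
  rw [AbsoluteValue.abs_apply, Fintype.card_fin, nsmul_eq_mul] at h3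
  refine le_trans h3 ?_
  have h4 : (((m + n).factorial : ℕ) : ℤ) ≤ ((s : ℤ) + 1) ^ s := by
    have : (m + n).factorial ≤ (s + 1) ^ s :=
      (Nat.factorial_le hmn).trans ((Nat.factorial_le_pow s).trans
        (Nat.pow_le_pow_left (by omega) _))
    exact_mod_cast this
  have h5 : (((s : ℤ) + 1) ^ (s + 1)) ^ (m + n) ≤ (((s : ℤ) + 1) ^ (s + 1)) ^ s :=
    pow_le_pow_right₀ (one_le_pow₀ (by omega)) hmn
  calc _ ≤ ((s : ℤ) + 1) ^ s * (((s : ℤ) + 1) ^ (s + 1)) ^ s :=
        mul_le_mul h4 h5 (by positivity) (by positivity)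
    _ = ((s : ℤ) + 1) ^ (s + (s + 1) * s) := by rw [← pow_mul, ← pow_add]
    _ ≤ _ := pow_le_pow_right₀ (by omega) (by nlinarith)

/-- Harmonic sums in the field with `p` elements. -/
noncomputable def hm (p k : ℕ) : ZMod p := ∑ i ∈ range k, (((i + 1 : ℕ) : ZMod p))⁻¹

lemma sum_Ioc_hm (p k a b : ℕ) (hab : a ≤ b) :
    ∑ i ∈ Ioc a b, ((k : ZMod p) + (i : ZMod p))⁻¹ = hm p (k + b) - hm p (k + a) := by
  induction b, hab using Nat.le_induction with
  | base => simp
  | succ b hab ih =>
    rw [sum_Ioc_succ_top hab, ih, ← add_assoc, hm, hm, hm, sum_range_succ]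
    push_cast
    rw [add_assoc (k : ZMod p)]
    ring

lemma dvd_eval_F (p k a b : ℕ) [Fact p.Prime] (hab : a ≤ b) (hk : k + b < p)
    (h : hm p (k + b) = hm p (k + a)) : (p : ℤ) ∣ (F a b).eval (k : ℤ) := by
  rw [← ZMod.intCast_zmod_eq_zero_iff_dvd]
  have h1 : (((F a b).eval (k : ℤ) : ℤ) : ZMod p) = aeval (k : ZMod p) (F a b) := by
    have := aeval_algebraMap_apply (ZMod p) (k : ℤ) (F a b)
    simp only [eq_intCast, Int.cast_natCast, coe_aeval_eq_eval] at this
    exact this.symm
  rw [h1, F, aeval_deriv_prod, sum_Ioc_hm p k a b hab, h, sub_self, mul_zero]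
  intro i hi h0
  have h2 : ((k + i : ℕ) : ZMod p) = 0 := by push_cast; exact h0
  rw [ZMod.natCast_eq_zero_iff] at h2
  have h3 := mem_Ioc.mp hi
  have := Nat.le_of_dvd (by omega) h2
  omega

/-- Starting points of triples with equal harmonic sums and gaps `d`, `e`. -/
noncomputable def Tr (p d e : ℕ) : Finset ℕ := by
  classical
  exact (range p).filter fun k =>
    k + (d + e) < p ∧ hm p (k + d) = hm p k ∧ hm p (k + (d + e)) = hm p (k + d)

lemma mem_Tr {p d e k : ℕ} : k ∈ Tr p d e ↔
    k + (d + e) < p ∧ hm p (k + d) = hm p k ∧ hm p (k + (d + e)) = hm p (k + d) := by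
  simp only [Tr, mem_filter, mem_range]
  exact ⟨fun h => h.2, fun h => ⟨by omega, h⟩⟩

lemma natDegree_F_eq (a b : ℕ) (hab : a < b) : (F a b).natDegree = b - a - 1 := by
  apply le_antisymm (natDegree_F a b)
  apply le_natDegree_of_ne_zero
  rw [coeff_F_top a b hab]
  omega

lemma pow_Tr_dvd (p d e : ℕ) (hp : p.Prime) (hd : 1 ≤ d) (he : 1 ≤ e) :
    (p : ℤ) ^ (Tr p d e).card ∣ R d e := by
  classical
  have : Fact p.Prime := ⟨hp⟩
  rcases (Tr p d e).eq_empty_or_nonempty with h0 | ⟨k0, hk0⟩
  · simp [h0]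
  have hs : d + e < p := by have := (mem_Tr.mp hk0).1; omega
  have h1 := natDegree_F_eq 0 d hd
  have h2 := natDegree_F_eq d (d + e) (by omega)
  have hdv : ∀ a ∈ Tr p d e, (p : ℤ) ∣ (F 0 d).eval (a : ℤ) ∧
      (p : ℤ) ∣ (F d (d + e)).eval (a : ℤ) := by
    intro a ha
    obtain ⟨h3, h4, h5⟩ := mem_Tr.mp ha
    exact ⟨dvd_eval_F p a 0 d (by omega) (by omega) h4,
      dvd_eval_F p a d (d + e) (by omega) h3 h5⟩
  apply pow_dvd_resultant _ _ _ _ p hp le_rfl le_rfl (by omega)
  · intro a ha
    have := (mem_Tr.mp ha).1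
    exact mem_range.mpr (by omega)
  · set q := (F 0 d).map (Int.castRingHom (ZMod p)) with hq
    have hq0 : q ≠ 0 := by
      intro h0
      have h3 : q.coeff (d - 0 - 1) = 0 := by rw [h0, coeff_zero]
      rw [hq, coeff_map, coeff_F_top 0 d hd, eq_intCast, Int.cast_natCast,
        ZMod.natCast_eq_zero_iff] at h3
      have := Nat.le_of_dvd (by omega) h3
      omega
    have h3 : (Tr p d e).card ≤ q.roots.toFinset.card := by
      apply card_le_card_of_injOn (fun a : ℕ => (a : ZMod p))
      · intro a ha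
        have h4 := (ZMod.intCast_zmod_eq_zero_iff_dvd _ _).mpr (hdv a ha).1
        simp only [coe_sort_coe, Multiset.mem_toFinset, mem_coe]
        rw [mem_roots hq0, IsRoot, hq]
        have h5 := eval_map_apply (f := Int.castRingHom (ZMod p)) (p := F 0 d) (a : ℤ)
        simp only [eq_intCast, Int.cast_natCast] at h5
        rw [h5]
        exact h4
      · intro a ha b hb hab
        have h4 := (mem_Tr.mp ha).1
        have h5 := (mem_Tr.mp hb).1
        have h6 := (ZMod.natCast_eq_natCast_iff' a b p).mp hab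
        rwa [Nat.mod_eq_of_lt (by omega), Nat.mod_eq_of_lt (by omega)] at h6
    have h4 : q.natDegree ≤ (F 0 d).natDegree := natDegree_map_le
    have h5 := (Multiset.toFinset_card_le q.roots).trans (card_roots' q)
    omega
  · exact hdv

lemma sum_Tr_log_le (S : Finset ℕ) (hS : ∀ p ∈ S, p.Prime) (d e : ℕ) (hd : 1 ≤ d) (he : 1 ≤ e) :
    ∑ p ∈ S, ((Tr p d e).card : ℝ) * Real.log p
      ≤ ((d + e : ℕ) + 1 : ℝ) ^ 2 * Real.log ((d + e : ℕ) + 1) := by
  have h1 : (∏ p ∈ S, (p : ℤ) ^ (Tr p d e).card) ∣ R d e := by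
    apply Finset.prod_dvd_of_coprime
    · intro p hp q hq hpq
      apply IsCoprime.pow
      rw [Nat.isCoprime_iff_coprime]
      exact (Nat.coprime_primes (hS p hp) (hS q hq)).mpr hpq
    · intro p hp
      exact pow_Tr_dvd p d e (hS p hp) hd he
  have h2 := (Int.le_of_dvd (abs_pos.mpr (R_ne_zero d e hd he)) ((dvd_abs _ _).mpr h1)).trans
    (abs_R_le d e)
  have h3 : (∏ p ∈ S, (p : ℝ) ^ (Tr p d e).card)
      ≤ (((d + e : ℕ) : ℝ) + 1) ^ ((d + e + 1) ^ 2) := by exact_mod_cast h2
  have hpos : ∀ p ∈ S, (0 : ℝ) < (p : ℝ) ^ (Tr p d e).card := fun p hp =>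
    pow_pos (by exact_mod_cast (hS p hp).pos) _
  have h4 := Real.log_le_log (prod_pos hpos) h3
  rw [Real.log_prod (fun p hp => (hpos p hp).ne'), Real.log_pow] at h4
  simp only [Real.log_pow] at h4
  refine h4.trans (le_of_eq ?_)
  push_cast
  ring

/-- Few equal values unless there are many short triples. -/
lemma card_fiber_le (p y D : ℕ) (hy : y ≤ p) (hD : 1 ≤ D) (A : Finset ℕ) (hA : A ⊆ range y)
    (r : ZMod p) (hr : ∀ k ∈ A, hm p k = r) :
    A.card ≤ 2 * (y / D + 1) +
      ∑ x ∈ (Icc 1 D ×ˢ Icc 1 D).filter (fun x => x.1 + x.2 ≤ D), (Tr p x.1 x.2).card := by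
  classical
  set G := ((Icc 1 D ×ˢ Icc 1 D).filter (fun x => x.1 + x.2 ≤ D)).biUnion
    (fun x => Tr p x.1 x.2) with hG
  have h1 : (A \ G).card ≤ 2 * (range (y / D + 1)).card := by
    apply card_le_mul_card_image_of_maps_to (f := fun k => k / D)
    · intro a ha
      have := mem_range.mp (hA (mem_sdiff.mp ha).1)
      exact mem_range.mpr (Nat.lt_succ_of_le (Nat.div_le_div_right this.le))
    · intro j _
      by_contra hcon
      have key : ∀ a b c, a ∈ (A \ G).filter (fun k => k / D = j) →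
          b ∈ (A \ G).filter (fun k => k / D = j) → c ∈ (A \ G).filter (fun k => k / D = j) →
          a < b → b < c → False := by
        intro a b c ha hb hc hab hbc
        simp only [mem_filter, mem_sdiff] at ha hb hc
        apply ha.1.2
        have hc1 := mem_range.mp (hA hc.1.1)
        have h2 := Nat.div_add_mod a D
        have h3 := Nat.div_add_mod c D
        have h4 := Nat.mod_lt c hD
        rw [ha.2] at h2
        rw [hc.2] at h3
        rw [hG, mem_biUnion]
        refine ⟨(b - a, c - b), ?_, ?_⟩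
        · simp only [mem_filter, mem_product, mem_Icc]
          omega
        · have e1 : a + (b - a) = b := by omega
          have e2 : a + (b - a + (c - b)) = c := by omega
          rw [mem_Tr, e1, e2, hr a ha.1.1, hr b hb.1.1, hr c hc.1.1]
          exact ⟨by omega, rfl, rfl⟩
      obtain ⟨a, b, c, ha, hb, hc, hab, hac, hbc⟩ := two_lt_card_iff.mp (not_le.mp hcon)
      rcases lt_or_gt_of_ne hab with h1 | h1 <;> rcases lt_or_gt_of_ne hac with h2 | h2 <;>
        rcases lt_or_gt_of_ne hbc with h3 | h3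
      · exact key a b c ha hb hc h1 h3
      · exact key a c b ha hc hb h2 h3
      · omega
      · exact key c a b hc ha hb h2 h1
      · exact key b a c hb ha hc h1 h2
      · omega
      · exact key b c a hb hc ha h3 h2
      · exact key c b a hc hb ha h3 h1
  have h2 : A.card ≤ (A \ G).card + G.card := card_le_card_sdiff_add_card
  have h3 : G.card ≤ _ := card_biUnion_le
  rw [card_range] at h1
  omega

end Pool.Agent.MP_7915da_nt
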